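import Mathlib

set_option autoImplicit false

open Complex

namespace Pool.Agent.Results.MP_2c87a3_an.M24

/-- The Fourier transform of the uniform measure on `E`. -/
noncomputable def nu (E : Finset ℤ) (ξ : ℝ) : ℂ :=
  1 / (E.card : ℂ) * ∑ a ∈ E, exp (-2 * Real.pi * I * ξ * a)

/-- Spectral pairs in `ℤ_N`. -/
def Spectral (N : ℕ) (A B : Finset ℤ) : Prop :=
  ∀ b ∈ B, ∀ b' ∈ B, b ≠ b' → nu A ((b - b' : ℤ) / N) = 0

/-- Distributed spectral pairs. -/
def Distributed (M : ℕ) (A B : Finset ℤ) : Prop :=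
  ∀ b₁ ∈ B, ∀ b₁' ∈ B, b₁ ≠ b₁' → nu A ((b₁ - b₁' : ℤ) / M) = 0 ∨
    ∀ b₂ ∈ B, ∀ b₂' ∈ B, nu A ((b₁ - b₁' : ℤ) / M ^ 2 + (b₂ - b₂' : ℤ) / M) = 0

lemma fac (ξ : ℝ) : nu {0, 3, 18, 21} ξ =
    1 / 4 * ((1 + exp (-2 * Real.pi * I * (ξ * 3 : ℝ))) * (1 + exp (-2 * Real.pi * I * (ξ * 18 : ℝ)))) := by
  unfold nu
  rw [Finset.sum_insert (by decide), Finset.sum_insert (by decide), Finset.sum_insert (by decide),
    Finset.sum_singleton, show ({0, 3, 18, 21} : Finset ℤ).card = 4 by decide]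
  have : exp (-2 * Real.pi * I * ξ * 21) =
      exp (-2 * Real.pi * I * (ξ * 3)) * exp (-2 * Real.pi * I * (ξ * 18)) := by
    rw [← exp_add]; congr 1; ring
  push_cast
  rw [this]
  simp only [mul_zero, exp_zero, mul_assoc]
  ring

lemma half (x : ℝ) (k : ℤ) (h : x = k + 1 / 2) : 1 + exp (-2 * Real.pi * I * x) = 0 := by
  have : -2 * Real.pi * I * x = ((-k - 1 : ℤ) : ℂ) * (2 * Real.pi * I) + Real.pi * I := by
    rw [h]; push_cast; ring
  rw [this, exp_add, exp_int_mul_two_pi_mul_I, exp_pi_mul_I]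
  ring

lemma nz (x : ℝ) (k : ℤ) (h : |x - k| < 1 / 4) : 1 + exp (-2 * Real.pi * I * x) ≠ 0 := by
  have : -2 * Real.pi * I * x =
      ((-k : ℤ) : ℂ) * (2 * Real.pi * I) + ((-2 * Real.pi * (x - k) : ℝ) : ℂ) * I := by
    push_cast; ring
  rw [this, exp_add, exp_int_mul_two_pi_mul_I, one_mul]
  intro h0
  have h1 := congrArg re h0
  rw [add_re, exp_ofReal_mul_I_re, one_re, zero_re] at h1
  obtain ⟨a, b⟩ := abs_lt.1 h
  have := Real.cos_pos_of_mem_Ioo (x := -2 * Real.pi * (x - k))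
    ⟨by nlinarith [Real.pi_pos], by nlinarith [Real.pi_pos]⟩
  linarith

theorem result : ∃ (M : ℕ) (A B : Finset ℤ), 3 ≤ M ∧ A ⊆ Finset.Ico 0 (M : ℤ) ∧
    B ⊆ Finset.Ico 0 (M : ℤ) ∧ A.card = B.card ∧ 1 < A.card ∧ A.card < M ∧
    Distributed M A B ∧ ¬ Spectral M A B ∧ ¬ Spectral (M ^ 2) A B := by
  refine ⟨24, {0, 3, 18, 21}, {0, 4, 16, 20}, by norm_num, by decide, by decide, by decide,
    by decide, by decide, fun b hb b' hb' hne => ?_, fun h => ?_, fun h => ?_⟩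
  · have h1 : (∃ k : ℤ, b - b' = 8 * k + 4) ∨ ∃ k : ℤ, b - b' = 32 * k + 16 := by
      by_cases h : (b - b') % 8 = 4
      · exact Or.inl ⟨(b - b') / 8, by omega⟩
      · refine Or.inr ⟨(b - b') / 32, ?_⟩
        simp only [Finset.mem_insert, Finset.mem_singleton] at hb hb'
        omega
    rcases h1 with ⟨k, hk⟩ | ⟨k, hk⟩
    · left
      rw [fac, half _ k (by rw [hk]; push_cast; ring)]
      ring
    · right
      intro c hc c' hc'
      obtain ⟨j, hj⟩ : ∃ j : ℤ, c - c' = 4 * j := by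
        refine ⟨(c - c') / 4, ?_⟩
        simp only [Finset.mem_insert, Finset.mem_singleton] at hc hc'
        omega
      rw [fac, half (_ * 18) (k + 3 * j) (by rw [hk, hj]; push_cast; ring)]
      ring
  · have := h 16 (by decide) 0 (by decide) (by decide)
    rw [fac] at this
    exact mul_ne_zero (by norm_num) (mul_ne_zero (nz _ 2 (by norm_num)) (nz _ 12 (by norm_num))) this
  · have := h 4 (by decide) 0 (by decide) (by decide)
    rw [fac] at this
    exact mul_ne_zero (by norm_num) (mul_ne_zero (nz _ 0 (by norm_num [abs_of_pos]))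
      (nz _ 0 (by norm_num [abs_of_pos]))) this

end Pool.Agent.Results.MP_2c87a3_an.M24
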